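import Pool.Agent.T6.H90.Room.Sound
import Pool.Agent.T6.H90.Room.Top0
import Pool.Agent.T6.H90.Room.Top1

/-!
# The refutations
-/

set_option autoImplicit false
set_option maxRecDepth 100000

namespace Pool.Agent.T6.H90.Room

theorem nilK : ∀ k ∈ ([] : List Nat), Ref k := fun _ hk => absurd hk (List.not_mem_nil)

theorem consK {a : Nat} {l : List Nat} (h : Ref a) (h' : ∀ k ∈ l, Ref k) : ∀ k ∈ a :: l, Ref k := by
  intro k hk
  rcases List.mem_cons.1 hk with rfl | hk
  · exact h
  · exact h' k hk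

theorem ref0 : Ref rt0 :=
  ref_of_ok (K := ks0)
    (consK (ref_of_ok nilK ok0_0)
     (consK (ref_of_ok nilK ok0_1)
     (consK (ref_of_ok nilK ok0_2)
     (consK (ref_of_ok nilK ok0_3)
     (consK (ref_of_ok nilK ok0_4)
     (consK (ref_of_ok nilK ok0_5)
     (consK (ref_of_ok nilK ok0_6)
     (consK (ref_of_ok nilK ok0_7)
     (consK (ref_of_ok nilK ok0_8)
     (consK (ref_of_ok nilK ok0_9)
     (consK (ref_of_ok nilK ok0_10)
     (consK (ref_of_ok nilK ok0_11)
     (consK (ref_of_ok nilK ok0_12)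
     (consK (ref_of_ok nilK ok0_13)
     (consK (ref_of_ok nilK ok0_14)
     (consK (ref_of_ok nilK ok0_15)
     (consK (ref_of_ok nilK ok0_16)
     (consK (ref_of_ok nilK ok0_17)
     (consK (ref_of_ok nilK ok0_18)
     (consK (ref_of_ok nilK ok0_19)
     (consK (ref_of_ok nilK ok0_20)
     (consK (ref_of_ok nilK ok0_21)
     (consK (ref_of_ok nilK ok0_22)
     (consK (ref_of_ok nilK ok0_23)
     (consK (ref_of_ok nilK ok0_24)
     (consK (ref_of_ok nilK ok0_25)
     (consK (ref_of_ok nilK ok0_26)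
     (consK (ref_of_ok nilK ok0_27)
     (consK (ref_of_ok nilK ok0_28)
     (consK (ref_of_ok nilK ok0_29)
     (consK (ref_of_ok nilK ok0_30)
     (consK (ref_of_ok nilK ok0_31)
     (consK (ref_of_ok nilK ok0_32)
     (consK (ref_of_ok nilK ok0_33)
     (consK (ref_of_ok nilK ok0_34)
     (consK (ref_of_ok nilK ok0_35)
     (consK (ref_of_ok nilK ok0_36)
     (consK (ref_of_ok nilK ok0_37)
     (consK (ref_of_ok nilK ok0_38)
     (consK (ref_of_ok nilK ok0_39)
     (consK (ref_of_ok nilK ok0_40)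
     (consK (ref_of_ok nilK ok0_41)
     (consK (ref_of_ok nilK ok0_42)
     (consK (ref_of_ok nilK ok0_43)
     (consK (ref_of_ok nilK ok0_44)
     (consK (ref_of_ok nilK ok0_45)
     (consK (ref_of_ok nilK ok0_46)
     (consK (ref_of_ok nilK ok0_47)
     (consK (ref_of_ok nilK ok0_48)
     (consK (ref_of_ok nilK ok0_49)
     (consK (ref_of_ok nilK ok0_50)
     (consK (ref_of_ok nilK ok0_51)
     (consK (ref_of_ok nilK ok0_52)
     (consK (ref_of_ok nilK ok0_53)
     (consK (ref_of_ok nilK ok0_54)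
     (consK (ref_of_ok nilK ok0_55)
     (consK (ref_of_ok nilK ok0_56)
     (consK (ref_of_ok nilK ok0_57)
     (consK (ref_of_ok nilK ok0_58)
     (consK (ref_of_ok nilK ok0_59)
     (consK (ref_of_ok nilK ok0_60)
     (consK (ref_of_ok nilK ok0_61)
     (consK (ref_of_ok nilK ok0_62)
     (consK (ref_of_ok nilK ok0_63)
     (consK (ref_of_ok nilK ok0_64)
     (consK (ref_of_ok nilK ok0_65)
     (consK (ref_of_ok nilK ok0_66)
     (consK (ref_of_ok nilK ok0_67)
     (consK (ref_of_ok nilK ok0_68)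
     (consK (ref_of_ok nilK ok0_69)
     (consK (ref_of_ok nilK ok0_70)
     (consK (ref_of_ok nilK ok0_71)
     (consK (ref_of_ok nilK ok0_72)
     (consK (ref_of_ok nilK ok0_73)
     (consK (ref_of_ok nilK ok0_74)
     (consK (ref_of_ok nilK ok0_75)
     (consK (ref_of_ok nilK ok0_76)
     (consK (ref_of_ok nilK ok0_77)
     (consK (ref_of_ok nilK ok0_78)
     (consK (ref_of_ok nilK ok0_79)
     (consK (ref_of_ok nilK ok0_80)
     (consK (ref_of_ok nilK ok0_81)
     (consK (ref_of_ok nilK ok0_82)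
     (consK (ref_of_ok nilK ok0_83)
     (consK (ref_of_ok nilK ok0_84)
     (consK (ref_of_ok nilK ok0_85)
     (consK (ref_of_ok nilK ok0_86)
     (consK (ref_of_ok nilK ok0_87)
     (consK (ref_of_ok nilK ok0_88)
     (consK (ref_of_ok nilK ok0_89)
     (consK (ref_of_ok nilK ok0_90)
     (consK (ref_of_ok nilK ok0_91)
     (consK (ref_of_ok nilK ok0_92)
     (consK (ref_of_ok nilK ok0_93)
     (consK (ref_of_ok nilK ok0_94)
     (consK (ref_of_ok nilK ok0_95)
     (consK (ref_of_ok nilK ok0_96)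
     (consK (ref_of_ok nilK ok0_97)
     (consK (ref_of_ok nilK ok0_98)
     (consK (ref_of_ok nilK ok0_99)
     (consK (ref_of_ok nilK ok0_100)
     (consK (ref_of_ok nilK ok0_101)
     (consK (ref_of_ok nilK ok0_102) nilK))))))))))))))))))))))))))))))))))))))))))))))))))))))))))))))))))))))))))))))))))))))))))))))))))))))) okt0

theorem ref1 : Ref rt1 :=
  ref_of_ok (K := ks1)
    (consK (ref_of_ok nilK ok1_0)
     (consK (ref_of_ok nilK ok1_1)
     (consK (ref_of_ok nilK ok1_2)
     (consK (ref_of_ok nilK ok1_3)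
     (consK (ref_of_ok nilK ok1_4)
     (consK (ref_of_ok nilK ok1_5)
     (consK (ref_of_ok nilK ok1_6)
     (consK (ref_of_ok nilK ok1_7)
     (consK (ref_of_ok nilK ok1_8)
     (consK (ref_of_ok nilK ok1_9)
     (consK (ref_of_ok nilK ok1_10)
     (consK (ref_of_ok nilK ok1_11)
     (consK (ref_of_ok nilK ok1_12)
     (consK (ref_of_ok nilK ok1_13)
     (consK (ref_of_ok nilK ok1_14)
     (consK (ref_of_ok nilK ok1_15)
     (consK (ref_of_ok nilK ok1_16)
     (consK (ref_of_ok nilK ok1_17)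
     (consK (ref_of_ok nilK ok1_18)
     (consK (ref_of_ok nilK ok1_19)
     (consK (ref_of_ok nilK ok1_20)
     (consK (ref_of_ok nilK ok1_21)
     (consK (ref_of_ok nilK ok1_22)
     (consK (ref_of_ok nilK ok1_23)
     (consK (ref_of_ok nilK ok1_24)
     (consK (ref_of_ok nilK ok1_25)
     (consK (ref_of_ok nilK ok1_26)
     (consK (ref_of_ok nilK ok1_27)
     (consK (ref_of_ok nilK ok1_28)
     (consK (ref_of_ok nilK ok1_29)
     (consK (ref_of_ok nilK ok1_30)
     (consK (ref_of_ok nilK ok1_31)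
     (consK (ref_of_ok nilK ok1_32)
     (consK (ref_of_ok nilK ok1_33)
     (consK (ref_of_ok nilK ok1_34)
     (consK (ref_of_ok nilK ok1_35)
     (consK (ref_of_ok nilK ok1_36)
     (consK (ref_of_ok nilK ok1_37)
     (consK (ref_of_ok nilK ok1_38)
     (consK (ref_of_ok nilK ok1_39)
     (consK (ref_of_ok nilK ok1_40)
     (consK (ref_of_ok nilK ok1_41)
     (consK (ref_of_ok nilK ok1_42)
     (consK (ref_of_ok nilK ok1_43)
     (consK (ref_of_ok nilK ok1_44)
     (consK (ref_of_ok nilK ok1_45)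
     (consK (ref_of_ok nilK ok1_46)
     (consK (ref_of_ok nilK ok1_47)
     (consK (ref_of_ok nilK ok1_48)
     (consK (ref_of_ok nilK ok1_49)
     (consK (ref_of_ok nilK ok1_50)
     (consK (ref_of_ok nilK ok1_51)
     (consK (ref_of_ok nilK ok1_52)
     (consK (ref_of_ok nilK ok1_53)
     (consK (ref_of_ok nilK ok1_54)
     (consK (ref_of_ok nilK ok1_55)
     (consK (ref_of_ok nilK ok1_56)
     (consK (ref_of_ok nilK ok1_57)
     (consK (ref_of_ok nilK ok1_58)
     (consK (ref_of_ok nilK ok1_59)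
     (consK (ref_of_ok nilK ok1_60)
     (consK (ref_of_ok nilK ok1_61)
     (consK (ref_of_ok nilK ok1_62)
     (consK (ref_of_ok nilK ok1_63)
     (consK (ref_of_ok nilK ok1_64)
     (consK (ref_of_ok nilK ok1_65)
     (consK (ref_of_ok nilK ok1_66)
     (consK (ref_of_ok nilK ok1_67)
     (consK (ref_of_ok nilK ok1_68)
     (consK (ref_of_ok nilK ok1_69)
     (consK (ref_of_ok nilK ok1_70)
     (consK (ref_of_ok nilK ok1_71)
     (consK (ref_of_ok nilK ok1_72)
     (consK (ref_of_ok nilK ok1_73)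
     (consK (ref_of_ok nilK ok1_74)
     (consK (ref_of_ok nilK ok1_75)
     (consK (ref_of_ok nilK ok1_76)
     (consK (ref_of_ok nilK ok1_77)
     (consK (ref_of_ok nilK ok1_78)
     (consK (ref_of_ok nilK ok1_79)
     (consK (ref_of_ok nilK ok1_80)
     (consK (ref_of_ok nilK ok1_81)
     (consK (ref_of_ok nilK ok1_82)
     (consK (ref_of_ok nilK ok1_83)
     (consK (ref_of_ok nilK ok1_84)
     (consK (ref_of_ok nilK ok1_85)
     (consK (ref_of_ok nilK ok1_86)
     (consK (ref_of_ok nilK ok1_87)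
     (consK (ref_of_ok nilK ok1_88)
     (consK (ref_of_ok nilK ok1_89)
     (consK (ref_of_ok nilK ok1_90)
     (consK (ref_of_ok nilK ok1_91)
     (consK (ref_of_ok nilK ok1_92)
     (consK (ref_of_ok nilK ok1_93)
     (consK (ref_of_ok nilK ok1_94)
     (consK (ref_of_ok nilK ok1_95)
     (consK (ref_of_ok nilK ok1_96)
     (consK (ref_of_ok nilK ok1_97) nilK)))))))))))))))))))))))))))))))))))))))))))))))))))))))))))))))))))))))))))))))))))))))))))))))))) okt1

end Pool.Agent.T6.H90.Room
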