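import Pool.Agent.T6.H90.Room.Mach

/-!
# Soundness of the search machine
-/

set_option autoImplicit false

namespace Pool.Agent.T6.H90.Room

/-- orthogonal arrays of side 9 with entries below 10, the cells are numbered `9 i + j` -/
structure Sol (L M : Nat → Nat) : Prop where
  lt : ∀ c < 81, L c < 10 ∧ M c < 10
  rowL : ∀ c < 81, ∀ c' < 81, c ≠ c' → c / 9 = c' / 9 → L c ≠ L c'
  colL : ∀ c < 81, ∀ c' < 81, c ≠ c' → c % 9 = c' % 9 → L c ≠ L c'
  rowM : ∀ c < 81, ∀ c' < 81, c ≠ c' → c / 9 = c' / 9 → M c ≠ M c'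
  colM : ∀ c < 81, ∀ c' < 81, c ≠ c' → c % 9 = c' % 9 → M c ≠ M c'
  pr : ∀ c < 81, ∀ c' < 81, c ≠ c' → ¬ (L c = L c' ∧ M c = M c')

/-- all options of the arrays are in the state -/
def Fits (r : Nat) (L M : Nat → Nat) : Prop :=
  ∀ c < 81, r.testBit (100 * c + (10 * L c + M c)) = true

/-- the state is refuted -/
def Ref (r : Nat) : Prop := ∀ L M, Sol L M → ¬ Fits r L M

/-- the remaining options of the open node are refuted -/
def Bad (e : Ent) : Prop :=
  e.c < 81 → ∀ L M, Sol L M → Fits e.rem L M → e.d.testBit (10 * L e.c + M e.c) = false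

/-- bounded quantifiers for the kernel -/
def allLt (f : Nat → Bool) (n : Nat) : Bool :=
  Nat.rec (motive := fun _ => Bool) true (fun n b => cond (f n) b false) n

theorem allLt_spec (f : Nat → Bool) (n : Nat) (h : allLt f n = true) : ∀ m < n, f m = true := by
  induction n with
  | zero => intro m hm; omega
  | succ n ih =>
    intro m hm
    have h' : cond (f n) (allLt f n) false = true := h
    cases hf : f n with
    | false => rw [hf] at h'; simp at h'
    | true =>
      rw [hf] at h'
      rcases Nat.lt_succ_iff_lt_or_eq.1 hm with h1 | h1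
      · exact ih h' m h1
      · rw [h1]; exact hf

theorem tb_lt {x n m : Nat} (hx : x < 2 ^ n) (h : x.testBit m = true) : m < n := by
  by_contra hc
  push Not at hc
  have : x < 2 ^ m := lt_of_lt_of_le hx (Nat.pow_le_pow_right (by norm_num) hc)
  rw [Nat.testBit_lt_two_pow this] at h
  exact absurd h (by simp)

theorem cellP_tb {m : Nat} (h : cellP.testBit m = true) : m < 100 := by
  unfold cellP at h
  rw [Nat.testBit_two_pow_sub_one] at h
  exact of_decide_eq_true h

theorem cellP_tb' {m : Nat} (h : m < 100) : cellP.testBit m = true := by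
  unfold cellP
  rw [Nat.testBit_two_pow_sub_one]
  exact decide_eq_true h

theorem rowL_tb {m : Nat} (h : rowL.testBit m = true) : m < 900 ∧ m % 100 < 10 := by
  have h1 : m < 900 := tb_lt (x := rowL) (n := 900) (by decide +kernel) h
  refine ⟨h1, ?_⟩
  have h2 : allLt (fun m => !(rowL.testBit m) || Nat.blt (m % 100) 10) 900 = true := by
    decide +kernel
  have h3 := allLt_spec _ _ h2 m h1
  simp only [h, Bool.not_true, Bool.false_or, Nat.blt_eq] at h3
  exact h3

theorem rowM_tb {m : Nat} (h : rowM.testBit m = true) : m < 900 ∧ m % 10 = 0 := by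
  have h1 : m < 900 := tb_lt (x := rowM) (n := 900) (by decide +kernel) h
  refine ⟨h1, ?_⟩
  have h2 : allLt (fun m => !(rowM.testBit m) || Nat.blt (m % 10) 1) 900 = true := by
    decide +kernel
  have h3 := allLt_spec _ _ h2 m h1
  simp only [h, Bool.not_true, Bool.false_or, Nat.blt_eq] at h3
  omega

theorem colL_tb {m : Nat} (h : colL.testBit m = true) : m % 900 < 10 := by
  have h1 : m < 8100 := tb_lt (x := colL) (n := 8100) (by decide +kernel) h
  have h2 : allLt (fun m => !(colL.testBit m) || Nat.blt (m % 900) 10) 8100 = true := by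
    decide +kernel
  have h3 := allLt_spec _ _ h2 m h1
  simp only [h, Bool.not_true, Bool.false_or, Nat.blt_eq] at h3
  exact h3

theorem colM_tb {m : Nat} (h : colM.testBit m = true) : m % 900 < 100 ∧ m % 10 = 0 := by
  have h1 : m < 8100 := tb_lt (x := colM) (n := 8100) (by decide +kernel) h
  have h2 : allLt (fun m => !(colM.testBit m) || (Nat.blt (m % 900) 100 && Nat.blt (m % 10) 1)) 8100
      = true := by
    decide +kernel
  have h3 := allLt_spec _ _ h2 m h1
  simp only [h, Bool.not_true, Bool.false_or, Bool.and_eq_true, Nat.blt_eq] at h3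
  omega

theorem prP_tb {m : Nat} (h : prP.testBit m = true) : m % 100 = 0 := by
  have h1 : m < 8100 := tb_lt (x := prP) (n := 8100) (by decide +kernel) h
  have h2 : allLt (fun m => !(prP.testBit m) || Nat.blt (m % 100) 1) 8100 = true := by
    decide +kernel
  have h3 := allLt_spec _ _ h2 m h1
  simp only [h, Bool.not_true, Bool.false_or, Nat.blt_eq] at h3
  omega

theorem tb_shl {x k m : Nat} (h : (Nat.shiftLeft x k).testBit m = true) :
    ∃ t, m = k + t ∧ x.testBit t = true := by
  have h1 : (x <<< k).testBit m = true := h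
  rw [Nat.testBit_shiftLeft, Bool.and_eq_true, decide_eq_true_eq] at h1
  exact ⟨m - k, by omega, h1.2⟩

theorem tb_lor {x y m : Nat} (h : (Nat.lor x y).testBit m = true) :
    x.testBit m = true ∨ y.testBit m = true := by
  have h1 : (x ||| y).testBit m = true := h
  rw [Nat.testBit_or, Bool.or_eq_true] at h1
  exact h1

theorem kill_sol {L M : Nat → Nat} (hs : Sol L M) {c₀ c : Nat} (h0 : c₀ < 81) (hc : c < 81)
    (hne : c ≠ c₀) :
    (kill c₀ (10 * L c₀ + M c₀)).testBit (100 * c + (10 * L c + M c)) = false := by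
  obtain ⟨a1, a2⟩ := hs.lt c₀ h0
  obtain ⟨a3, a4⟩ := hs.lt c hc
  have d1 : (10 * L c₀ + M c₀) / 10 = L c₀ := by omega
  have d2 : (10 * L c₀ + M c₀) % 10 = M c₀ := by omega
  by_contra hcon
  rw [Bool.not_eq_false] at hcon
  unfold kill at hcon
  rcases tb_lor hcon with h | h
  · rcases tb_lor h with h | h
    · rcases tb_lor h with h | h
      · obtain ⟨t, ht, h⟩ := tb_shl h
        have h5 := cellP_tb h
        change _ = 100 * c₀ + t at ht
        omega
      · obtain ⟨t, ht, h⟩ := tb_shl h
        obtain ⟨h5, h6⟩ := rowL_tb h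
        change _ = 900 * (c₀ / 9) + 10 * ((10 * L c₀ + M c₀) / 10) + t at ht
        rw [d1] at ht
        have h7 : c / 9 = c₀ / 9 := by omega
        have h8 : L c = L c₀ := by omega
        exact hs.rowL c hc c₀ h0 hne h7 h8
    · rcases tb_lor h with h | h
      · obtain ⟨t, ht, h⟩ := tb_shl h
        obtain ⟨h5, h6⟩ := rowM_tb h
        change _ = 900 * (c₀ / 9) + (10 * L c₀ + M c₀) % 10 + t at ht
        rw [d2] at ht
        have h8 : M c = M c₀ := by omega
        have h7 : c / 9 = c₀ / 9 := by omega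
        exact hs.rowM c hc c₀ h0 hne h7 h8
      · obtain ⟨t, ht, h⟩ := tb_shl h
        have h5 := colL_tb h
        change _ = 100 * (c₀ % 9) + 10 * ((10 * L c₀ + M c₀) / 10) + t at ht
        rw [d1] at ht
        have h7 : c % 9 = c₀ % 9 := by omega
        have h8 : L c = L c₀ := by omega
        exact hs.colL c hc c₀ h0 hne h7 h8
  · rcases tb_lor h with h | h
    · obtain ⟨t, ht, h⟩ := tb_shl h
      obtain ⟨h5, h6⟩ := colM_tb h
      change _ = 100 * (c₀ % 9) + (10 * L c₀ + M c₀) % 10 + t at ht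
      rw [d2] at ht
      have h8 : M c = M c₀ := by omega
      have h7 : c % 9 = c₀ % 9 := by omega
      exact hs.colM c hc c₀ h0 hne h7 h8
    · obtain ⟨t, ht, h⟩ := tb_shl h
      have h5 := prP_tb h
      exact hs.pr c hc c₀ h0 hne ⟨by omega, by omega⟩

theorem restr_fits {L M : Nat → Nat} (hs : Sol L M) {c₀ r : Nat} (h0 : c₀ < 81)
    (hf : Fits r L M) : Fits (restr r c₀ (10 * L c₀ + M c₀)) L M := by
  intro c hc
  change (((r ^^^ (r &&& kill c₀ (10 * L c₀ + M c₀))) |||
    (1 <<< (100 * c₀ + (10 * L c₀ + M c₀))))).testBit _ = true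
  rw [Nat.testBit_or, Nat.testBit_xor, Nat.testBit_and, hf c hc]
  by_cases hne : c = c₀
  · subst hne
    rw [Nat.testBit_shiftLeft]
    simp
  · rw [kill_sol hs h0 hc hne]
    simp

theorem dom_tb (r c m : Nat) (hm : m < 100) : (dom r c).testBit m = r.testBit (100 * c + m) := by
  change ((r >>> (100 * c)) &&& cellP).testBit m = _
  rw [Nat.testBit_and, Nat.testBit_shiftRight, cellP_tb' hm, Bool.and_true]

theorem ref_of_bad {r c : Nat} (hc : c < 81) (h : Bad ⟨r, c, dom r c⟩) : Ref r := by
  intro L M hs hf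
  have h1 := h hc L M hs hf
  change (dom r c).testBit (10 * L c + M c) = false at h1
  obtain ⟨a1, a2⟩ := hs.lt c hc
  rw [dom_tb _ _ _ (by omega), hf c hc] at h1
  exact absurd h1 (by simp)

/-- a pushed node is bad, and so is the rest -/
theorem push_bad {r c d : Nat} {st : List Ent} (h : ∀ e ∈ push r c d st, Bad e) :
    Bad ⟨r, c, d⟩ ∧ ∀ e ∈ st, Bad e := by
  unfold push at h
  cases hb : Nat.beq d 0 with
  | true =>
    rw [hb] at h
    have hd : d = 0 := Nat.eq_of_beq_eq_true hb
    refine ⟨?_, h⟩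
    intro _ L M _ _
    change d.testBit _ = false
    rw [hd]; simp
  | false =>
    rw [hb] at h
    exact ⟨h _ (List.mem_cons_self), fun e he => h e (List.mem_cons_of_mem _ he)⟩

theorem nxt_bad {K : List Nat} (hK : ∀ k ∈ K, Ref k) {r c2 : Nat} {st : List Ent}
    (h : ∀ e ∈ nxt K r c2 st, Bad e) : Ref r ∧ ∀ e ∈ st, Bad e := by
  unfold nxt at h
  cases hb : Nat.blt c2 81 with
  | true =>
    rw [hb] at h
    obtain ⟨h1, h2⟩ := push_bad h
    exact ⟨ref_of_bad (Nat.blt_eq.mp hb) h1, h2⟩
  | false =>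
    rw [hb] at h
    cases ha : K.any (Nat.beq r) with
    | true =>
      rw [ha] at h
      rw [List.any_eq_true] at ha
      obtain ⟨k, hk, hk2⟩ := ha
      have : r = k := Nat.eq_of_beq_eq_true hk2
      exact ⟨this ▸ hK k hk, h⟩
    | false =>
      rw [ha] at h
      obtain ⟨h1, h2⟩ := push_bad h
      exact ⟨ref_of_bad (by norm_num) h1, h2⟩

theorem one_step {r c d p : Nat} (h1 : Ref (restr r c p))
    (h2 : Bad ⟨r, c, Nat.xor d (Nat.shiftLeft 1 p)⟩) : Bad ⟨r, c, d⟩ := by
  intro hc L M hs hf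
  change d.testBit (10 * L c + M c) = false
  by_cases hp : 10 * L c + M c = p
  · exfalso
    exact h1 L M hs (hp ▸ restr_fits hs hc hf)
  · have h3 := h2 hc L M hs hf
    change (d ^^^ (1 <<< p)).testBit (10 * L c + M c) = false at h3
    rw [Nat.testBit_xor, Nat.testBit_shiftLeft] at h3
    have h4 : (decide (10 * L c + M c ≥ p) && Nat.testBit 1 (10 * L c + M c - p)) = false := by
      by_cases h5 : 10 * L c + M c ≥ p
      · have h6 : 10 * L c + M c - p ≠ 0 := by omega
        obtain ⟨k, hk⟩ := Nat.exists_eq_succ_of_ne_zero h6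
        rw [hk, Nat.succ_eq_add_one, Nat.testBit_add_one]
        simp
      · simp [h5]
    rw [h4, Bool.xor_false] at h3
    exact h3

theorem steps_bad {K : List Nat} (hK : ∀ k ∈ K, Ref k) (w n : Nat) :
    ∀ st, (∀ e ∈ steps K w n st, Bad e) → ∀ e ∈ st, Bad e := by
  induction n with
  | zero => intro st h; exact h
  | succ n ih =>
    intro st h
    cases st with
    | nil => simp
    | cons e st =>
      have h1 := ih _ h
      obtain ⟨h2, h3⟩ := nxt_bad hK h1
      obtain ⟨h4, h5⟩ := push_bad h3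
      intro e' he'
      rcases List.mem_cons.1 he' with rfl | he'
      · exact one_step h2 h4
      · exact h5 e' he'

theorem run_bad {K : List Nat} (hK : ∀ k ∈ K, Ref k) (ws : List Nat) :
    ∀ st, (∀ e ∈ run K ws st, Bad e) → ∀ e ∈ st, Bad e := by
  induction ws with
  | nil => intro st h; exact h
  | cons w ws ih =>
    intro st h
    exact steps_bad hK w 32 st (ih _ h)

/-- **Soundness of the machine.** -/
theorem ref_of_ok {K : List Nat} (hK : ∀ k ∈ K, Ref k) {r c : Nat} {ws : List Nat}
    (h : ok K r c ws = true) : Ref r := by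
  unfold ok at h
  rw [Bool.and_eq_true] at h
  obtain ⟨h1, h2⟩ := h
  have h3 : run K ws [⟨r, c, dom r c⟩] = [] := List.isEmpty_iff.1 h2
  refine ref_of_bad (Nat.blt_eq.mp h1) (run_bad hK ws [⟨r, c, dom r c⟩] ?_ _ (List.mem_singleton_self _))
  rw [h3]
  simp

end Pool.Agent.T6.H90.Room
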