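import Pool.Agent.T6.H90.Room.Sq
import Pool.Agent.T6.H90.Room.Sound
import Pool.Agent.T6.H90.Room.Top0
import Pool.Agent.T6.H90.Room.Top1
import Pool.Agent.T6.H90.Room.Refs

/-!
# The cyclic square is not isomorphic to an embedded Room square
-/

set_option autoImplicit false
set_option maxRecDepth 100000

namespace Pool.Agent.T6.H90.Room

open Pool.Agent.T6.H3.Room

/-- an embedding of the square `sqR` standardized with the symbol `s`, in the coordinates of
`sqR` -/
structure Emb (s : Fin 10) (L M : Fin 9 → Fin 9 → Fin 10) : Prop where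
  ne : ∀ a b, L a b ≠ s ∧ M a b ≠ s
  rowL : ∀ a, Function.Injective (L a)
  colL : ∀ b, Function.Injective fun a => L a b
  rowM : ∀ a, Function.Injective (M a)
  colM : ∀ b, Function.Injective fun a => M a b
  pr : Function.Injective fun c : Fin 9 × Fin 9 => (L c.1 c.2, M c.1 c.2)
  occ : ∀ a b p, sqR a b = some p → p = s(L a b, M a b) ∨ (p = s(s, L a b) ∧ M a b = L a b)

theorem Emb.swap {s : Fin 10} {L M : Fin 9 → Fin 9 → Fin 10} (h : Emb s L M) : Emb s M L := by
  refine ⟨fun a b => (h.ne a b).symm, h.rowM, h.colM, h.rowL, h.colL, ?_, ?_⟩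
  · intro c c' hcc
    simp only [Prod.mk.injEq] at hcc
    apply h.pr
    simp only [Prod.mk.injEq]
    exact ⟨hcc.2, hcc.1⟩
  · intro a b p hp
    rcases h.occ a b p hp with h1 | ⟨h1, h2⟩
    · left; rw [h1, Sym2.eq_swap]
    · right; rw [h2]; exact ⟨h1, rfl⟩

/-- the translation of the symbols -/
def tau : Equiv.Perm (Fin 10) :=
  ⟨fun i => Fin.ofNat 10 ([0, 2, 3, 4, 5, 6, 7, 8, 9, 1].getD i.1 0),
    fun i => Fin.ofNat 10 ([0, 9, 1, 2, 3, 4, 5, 6, 7, 8].getD i.1 0), by decide +kernel,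
    by decide +kernel⟩

theorem shift_R (i j : Fin 9) : sqR (i + 1) (j + 1) = (sqR i j).map (Sym2.map tau) := by
  have h : ∀ i j : Fin 9, dec tabR (i + 1) (j + 1) = (dec tabR i j).map fun c =>
      if tau c.1 < tau c.2 then (tau c.1, tau c.2) else (tau c.2, tau c.1) := by
    decide +kernel
  unfold sqR arr
  rw [h i j]
  cases dec tabR i j with
  | none => rfl
  | some c =>
    simp only [Option.map_some, Option.some.injEq, Sym2.map_mk]
    by_cases hlt : tau c.1 < tau c.2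
    · rw [if_pos hlt]
    · rw [if_neg hlt, Sym2.eq_swap]

theorem Emb.shift {s : Fin 10} {L M : Fin 9 → Fin 9 → Fin 10} (h : Emb s L M) :
    Emb (tau.symm s) (fun a b => tau.symm (L (a + 1) (b + 1)))
      (fun a b => tau.symm (M (a + 1) (b + 1))) := by
  refine ⟨?_, ?_, ?_, ?_, ?_, ?_, ?_⟩
  · intro a b
    exact ⟨fun e => (h.ne _ _).1 (tau.symm.injective e), fun e => (h.ne _ _).2 (tau.symm.injective e)⟩
  · intro a b b' e
    exact add_right_cancel (h.rowL _ (tau.symm.injective e))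
  · intro b a a' e
    exact add_right_cancel (h.colL (b + 1) (tau.symm.injective e))
  · intro a b b' e
    exact add_right_cancel (h.rowM _ (tau.symm.injective e))
  · intro b a a' e
    exact add_right_cancel (h.colM (b + 1) (tau.symm.injective e))
  · rintro ⟨a, b⟩ ⟨a', b'⟩ e
    simp only [Prod.mk.injEq, EmbeddingLike.apply_eq_iff_eq] at e
    have h1 := @Emb.pr s L M h (a + 1, b + 1) (a' + 1, b' + 1) (by
      simp only [Prod.mk.injEq]; exact e)
    simp only [Prod.mk.injEq, add_left_inj] at h1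
    rw [h1.1, h1.2]
  · intro a b p hp
    have h1 := shift_R a b
    rw [hp] at h1
    have h2 : ∀ q : Sym2 (Fin 10), p.map tau = q → p = q.map tau.symm := by
      rintro q rfl
      rw [Sym2.map_map]
      simp
    rcases h.occ (a + 1) (b + 1) _ h1 with h3 | ⟨h3, h4⟩
    · left
      have h5 := h2 _ h3
      rw [h5, Sym2.map_mk]
    · right
      have h5 := h2 _ h3
      rw [h5, Sym2.map_mk, h4]
      exact ⟨rfl, rfl⟩

theorem Emb.shifts (n : ℕ) : ∀ (s : Fin 10) (L M : Fin 9 → Fin 9 → Fin 10), Emb s L M →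
    ∃ L' M', Emb ((tau.symm)^[n] s) L' M' := by
  induction n with
  | zero => intro s L M h; exact ⟨L, M, h⟩
  | succ n ih =>
    intro s L M h
    rw [Function.iterate_succ_apply]
    exact ih _ _ _ h.shift

theorem beqF {m n : ℕ} (h : m ≠ n) : Nat.beq m n = false := by
  cases hb : Nat.beq m n with
  | false => rfl
  | true => exact absurd (Nat.eq_of_beq_eq_true hb) h

/-- the options of a cell -/
def allow (s c u v : ℕ) : Bool :=
  match dec tabR (Fin.ofNat 9 (c / 9)) (Fin.ofNat 9 (c % 9)) with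
  | none => !(Nat.beq u s) && !(Nat.beq v s)
  | some x =>
    bif Nat.beq x.1.1 s then Nat.beq u x.2.1 && Nat.beq v x.2.1
    else bif Nat.beq x.2.1 s then Nat.beq u x.1.1 && Nat.beq v x.1.1
    else bif Nat.beq c 1 then Nat.beq u 6 && Nat.beq v 9
    else (Nat.beq u x.1.1 && Nat.beq v x.2.1) || (Nat.beq u x.2.1 && Nat.beq v x.1.1)

def chkAll (r s : ℕ) : Bool :=
  allLt (fun c => allLt (fun p => !(allow s c (p / 10) (p % 10)) || r.testBit (100 * c + p)) 100) 81

theorem chk0 : chkAll rt0 0 = true := by decide +kernel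

theorem chk1 : chkAll rt1 1 = true := by decide +kernel

theorem allow_of_emb {s : Fin 10} {L M : Fin 9 → Fin 9 → Fin 10} (h : Emb s L M)
    (h6 : L 0 1 = 6 ∧ M 0 1 = 9) (c : ℕ) :
    allow s.1 c (L (Fin.ofNat 9 (c / 9)) (Fin.ofNat 9 (c % 9))).1
      (M (Fin.ofNat 9 (c / 9)) (Fin.ofNat 9 (c % 9))).1 = true := by
  set a := Fin.ofNat 9 (c / 9) with ha
  set b := Fin.ofNat 9 (c % 9) with hb
  obtain ⟨n1, n2⟩ := h.ne a b
  have n1' : (L a b).1 ≠ s.1 := fun e => n1 (Fin.ext e)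
  have n2' : (M a b).1 ≠ s.1 := fun e => n2 (Fin.ext e)
  unfold allow
  rw [← ha, ← hb]
  cases hd : dec tabR a b with
  | none => simp [beqF n1', beqF n2']
  | some x =>
    have hs : sqR a b = some s(x.1, x.2) := by
      unfold sqR arr
      rw [hd]
      rfl
    simp only
    rcases h.occ a b _ hs with h1 | ⟨h1, h2⟩
    · have h3 : (x.1 = L a b ∧ x.2 = M a b) ∨ (x.1 = M a b ∧ x.2 = L a b) := Sym2.eq_iff.1 h1
      have hx1 : Nat.beq x.1.1 s.1 = false := by
        apply beqF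
        rcases h3 with ⟨e, -⟩ | ⟨e, -⟩ <;> rw [e] <;> assumption
      have hx2 : Nat.beq x.2.1 s.1 = false := by
        apply beqF
        rcases h3 with ⟨-, e⟩ | ⟨-, e⟩ <;> rw [e] <;> assumption
      rw [hx1, hx2]
      simp only [cond_false]
      by_cases hc : c = 1
      · have ha' : a = 0 := by rw [ha, hc]; rfl
        have hb' : b = 1 := by rw [hb, hc]; rfl
        have : Nat.beq c 1 = true := by rw [hc]; rfl
        rw [this, ha', hb', h6.1, h6.2]
        rfl
      · have : Nat.beq c 1 = false := beqF hc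
        rw [this]
        simp only [cond_false]
        rcases h3 with ⟨e1, e2⟩ | ⟨e1, e2⟩
        · rw [e1, e2]; simp
        · rw [e1, e2]; simp
    · have h3 : (x.1 = s ∧ x.2 = L a b) ∨ (x.1 = L a b ∧ x.2 = s) := Sym2.eq_iff.1 h1
      rcases h3 with ⟨e1, e2⟩ | ⟨e1, e2⟩
      · rw [e1, e2, h2]; simp
      · have hx1 : Nat.beq x.1.1 s.1 = false := by
          apply beqF
          rw [e1]; exact n1'
        rw [hx1, e2, e1, h2]
        simp

theorem emb_false {s : Fin 10} {r : ℕ} (hr : Ref r) (hc : chkAll r s.1 = true)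
    {L M : Fin 9 → Fin 9 → Fin 10} (h : Emb s L M) (h6 : L 0 1 = 6 ∧ M 0 1 = 9) : False := by
  have hv : ∀ c < 81, (Fin.ofNat 9 (c / 9)).1 = c / 9 ∧ (Fin.ofNat 9 (c % 9)).1 = c % 9 := by
    intro c hc
    constructor
    · change c / 9 % 9 = c / 9
      omega
    · change c % 9 % 9 = c % 9
      omega
  refine hr (fun c => (L (Fin.ofNat 9 (c / 9)) (Fin.ofNat 9 (c % 9))).1)
    (fun c => (M (Fin.ofNat 9 (c / 9)) (Fin.ofNat 9 (c % 9))).1) ⟨?_, ?_, ?_, ?_, ?_, ?_⟩ ?_
  · intro c _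
    exact ⟨Fin.isLt _, Fin.isLt _⟩
  · intro c hc c' hc' hne h9 e
    have e1 := Fin.ext e
    rw [h9] at e1
    have e2 := congrArg Fin.val (h.rowL _ e1)
    rw [(hv c hc).2, (hv c' hc').2] at e2
    omega
  · intro c hc c' hc' hne h9 e
    have e1 := Fin.ext e
    rw [h9] at e1
    have e2 := congrArg Fin.val (h.colL _ e1)
    rw [(hv c hc).1, (hv c' hc').1] at e2
    omega
  · intro c hc c' hc' hne h9 e
    have e1 := Fin.ext e
    rw [h9] at e1
    have e2 := congrArg Fin.val (h.rowM _ e1)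
    rw [(hv c hc).2, (hv c' hc').2] at e2
    omega
  · intro c hc c' hc' hne h9 e
    have e1 := Fin.ext e
    rw [h9] at e1
    have e2 := congrArg Fin.val (h.colM _ e1)
    rw [(hv c hc).1, (hv c' hc').1] at e2
    omega
  · rintro c hc c' hc' hne ⟨e1, e2⟩
    have e3 := @Emb.pr s L M h (Fin.ofNat 9 (c / 9), Fin.ofNat 9 (c % 9))
      (Fin.ofNat 9 (c' / 9), Fin.ofNat 9 (c' % 9)) (by
        simp only [Prod.mk.injEq]
        exact ⟨Fin.ext e1, Fin.ext e2⟩)
    rw [Prod.mk.injEq] at e3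
    have e4 := congrArg Fin.val e3.1
    have e5 := congrArg Fin.val e3.2
    rw [(hv c hc).1, (hv c' hc').1] at e4
    rw [(hv c hc).2, (hv c' hc').2] at e5
    omega
  · intro c hc1
    have h1 := allLt_spec _ _ hc c hc1
    have h2 := allLt_spec _ _ h1 (10 * (L (Fin.ofNat 9 (c / 9)) (Fin.ofNat 9 (c % 9))).1 +
      (M (Fin.ofNat 9 (c / 9)) (Fin.ofNat 9 (c % 9))).1) (by
        have := (L (Fin.ofNat 9 (c / 9)) (Fin.ofNat 9 (c % 9))).2
        have := (M (Fin.ofNat 9 (c / 9)) (Fin.ofNat 9 (c % 9))).2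
        omega)
    have d1 : (10 * (L (Fin.ofNat 9 (c / 9)) (Fin.ofNat 9 (c % 9))).1 +
      (M (Fin.ofNat 9 (c / 9)) (Fin.ofNat 9 (c % 9))).1) / 10 =
      (L (Fin.ofNat 9 (c / 9)) (Fin.ofNat 9 (c % 9))).1 := by
        have := (M (Fin.ofNat 9 (c / 9)) (Fin.ofNat 9 (c % 9))).2
        omega
    have d2 : (10 * (L (Fin.ofNat 9 (c / 9)) (Fin.ofNat 9 (c % 9))).1 +
      (M (Fin.ofNat 9 (c / 9)) (Fin.ofNat 9 (c % 9))).1) % 10 =
      (M (Fin.ofNat 9 (c / 9)) (Fin.ofNat 9 (c % 9))).1 := by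
        have := (M (Fin.ofNat 9 (c / 9)) (Fin.ofNat 9 (c % 9))).2
        omega
    simp only [d1, d2, allow_of_emb h h6 c, Bool.not_true, Bool.false_or] at h2
    exact h2

theorem R01 : sqR 0 1 = some s(6, 9) := by
  have h : dec tabR 0 1 = some (6, 9) := by decide +kernel
  unfold sqR arr
  rw [h]
  rfl

theorem emb_false' {s : Fin 10} {r : ℕ} (hr : Ref r) (hc : chkAll r s.1 = true)
    (hs : s ≠ 6 ∧ s ≠ 9) {L M : Fin 9 → Fin 9 → Fin 10} (h : Emb s L M) : False := by
  rcases h.occ 0 1 _ R01 with h1 | ⟨h1, -⟩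
  · rcases Sym2.eq_iff.1 h1 with ⟨e1, e2⟩ | ⟨e1, e2⟩
    · exact emb_false hr hc h ⟨e1.symm, e2.symm⟩
    · exact emb_false hr hc h.swap ⟨e1.symm, e2.symm⟩
  · rcases Sym2.eq_iff.1 h1 with ⟨e1, e2⟩ | ⟨e1, e2⟩
    · exact hs.1 e1.symm
    · exact hs.2 e2.symm

theorem no_emb (s : Fin 10) (L M : Fin 9 → Fin 9 → Fin 10) : ¬ Emb s L M := by
  intro h
  by_cases h0 : s = 0
  · subst h0
    exact emb_false' ref0 chk0 ⟨by decide, by decide⟩ h
  · have h1 : ∀ s : Fin 10, s ≠ 0 → ∃ n : Fin 9, (tau.symm)^[n.1] s = 1 := by decide +kernel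
    obtain ⟨n, hn⟩ := h1 s h0
    obtain ⟨L', M', h2⟩ := Emb.shifts n.1 s L M h
    rw [hn] at h2
    exact emb_false' ref1 chk1 ⟨by decide, by decide⟩ h2

theorem not_iso_embedded (E : Arr 9) (hE : Embedded E) : ¬ Iso sqR E := by
  rintro ⟨ρ, κ, σ, hiso⟩
  obtain ⟨-, hstd, L, M, rL, cL, rM, cM, hpr, hdiag, hocc⟩ := hE
  have key : ∀ (x y : Fin 9), σ.symm x.succ = σ.symm y.succ → x = y := by
    intro x y e
    exact Fin.succ_injective _ (σ.symm.injective e)
  refine no_emb (σ.symm 0) (fun a b => σ.symm (L (ρ.symm a) (κ.symm b)).succ)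
    (fun a b => σ.symm (M (ρ.symm a) (κ.symm b)).succ) ⟨?_, ?_, ?_, ?_, ?_, ?_, ?_⟩
  · intro a b
    exact ⟨fun e => Fin.succ_ne_zero _ (σ.symm.injective e),
      fun e => Fin.succ_ne_zero _ (σ.symm.injective e)⟩
  · intro a b b' e
    exact κ.symm.injective (rL _ (key _ _ e))
  · intro b a a' e
    exact ρ.symm.injective (cL (κ.symm b) (key _ _ e))
  · intro a b b' e
    exact κ.symm.injective (rM _ (key _ _ e))
  · intro b a a' e
    exact ρ.symm.injective (cM (κ.symm b) (key _ _ e))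
  · rintro ⟨a, b⟩ ⟨a', b'⟩ e
    simp only [Prod.mk.injEq] at e
    have h1 := @hpr (ρ.symm a, κ.symm b) (ρ.symm a', κ.symm b') (by
      simp only [Prod.mk.injEq]
      exact ⟨key _ _ e.1, key _ _ e.2⟩)
    rw [Prod.mk.injEq] at h1
    rw [ρ.symm.injective h1.1, κ.symm.injective h1.2]
  · intro a b p hp
    have h1 := hiso (ρ.symm a) (κ.symm b)
    rw [Equiv.apply_symm_apply, Equiv.apply_symm_apply, hp] at h1
    have h2 : ∀ q : Sym2 (Fin 10), p.map σ = q → p = q.map σ.symm := by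
      rintro q rfl
      rw [Sym2.map_map]
      simp
    by_cases hij : ρ.symm a = κ.symm b
    · right
      rw [← hij, hstd] at h1
      have h3 : p.map σ = s(0, (ρ.symm a).succ) := (Option.some.inj h1).symm
      have h4 := h2 _ h3
      rw [Sym2.map_mk] at h4
      change p = s(σ.symm 0, σ.symm (L (ρ.symm a) (κ.symm b)).succ) ∧
        σ.symm (M (ρ.symm a) (κ.symm b)).succ = σ.symm (L (ρ.symm a) (κ.symm b)).succ
      rw [← hij, (hdiag _).1, (hdiag _).2]
      exact ⟨h4, rfl⟩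
    · left
      have h3 := hocc _ _ hij _ h1
      have h4 := h2 _ h3
      rw [Sym2.map_mk] at h4
      exact h4

end Pool.Agent.T6.H90.Room
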