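import Mathlib

/-!
# A search machine for orthogonal arrays of side 9

Cells are numbered `9 i + j`, an option is a cell `c` with an ordered pair `p = 10 u + v`; its number
is `100 c + p`. States are sets of options (natural numbers in binary).
-/

set_option autoImplicit false

namespace Pool.Agent.T6.H90.Room

def cellP : Nat := 2 ^ 100 - 1
def rowL : Nat := 1023 * ((2 ^ 900 - 1) / (2 ^ 100 - 1))
def rowM : Nat := (2 ^ 900 - 1) / (2 ^ 10 - 1)
def colL : Nat := 1023 * ((2 ^ 8100 - 1) / (2 ^ 900 - 1))
def colM : Nat := ((2 ^ 100 - 1) / 1023) * ((2 ^ 8100 - 1) / (2 ^ 900 - 1))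
def prP : Nat := (2 ^ 8100 - 1) / (2 ^ 100 - 1)

/-- the options which are killed by the choice of `p` in the cell `c` -/
def kill (c p : Nat) : Nat :=
  Nat.lor (Nat.lor (Nat.lor (Nat.shiftLeft cellP (Nat.mul 100 c))
    (Nat.shiftLeft rowL (Nat.add (Nat.mul 900 (Nat.div c 9)) (Nat.mul 10 (Nat.div p 10)))))
   (Nat.lor (Nat.shiftLeft rowM (Nat.add (Nat.mul 900 (Nat.div c 9)) (Nat.mod p 10)))
    (Nat.shiftLeft colL (Nat.add (Nat.mul 100 (Nat.mod c 9)) (Nat.mul 10 (Nat.div p 10))))))
   (Nat.lor (Nat.shiftLeft colM (Nat.add (Nat.mul 100 (Nat.mod c 9)) (Nat.mod p 10)))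
    (Nat.shiftLeft prP p))

/-- the state after the choice of `p` in the cell `c` -/
def restr (rem c p : Nat) : Nat :=
  Nat.lor (Nat.xor rem (Nat.land rem (kill c p))) (Nat.shiftLeft 1 (Nat.add (Nat.mul 100 c) p))

/-- the options of the cell `c` -/
def dom (rem c : Nat) : Nat := Nat.land (Nat.shiftRight rem (Nat.mul 100 c)) cellP

/-- an open node: a state, a cell and the options of the cell which are still to be considered -/
structure Ent where
  rem : Nat
  c : Nat
  d : Nat

def push (r c d : Nat) (st : List Ent) : List Ent :=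
  match Nat.beq d 0 with
  | true => st
  | false => ⟨r, c, d⟩ :: st

/-- the next node: branch at the cell `c2`, or (for `c2 = 81`) the state is in the list `K` of
refuted states -/
def nxt (K : List Nat) (r c2 : Nat) (st : List Ent) : List Ent :=
  match Nat.blt c2 81 with
  | true => push r c2 (dom r c2) st
  | false => match K.any (Nat.beq r) with
    | true => st
    | false => push r 0 (dom r 0) st

/-- `n` steps, the branching cells are the digits of `w` in base 82 -/
def steps (K : List Nat) (w : Nat) (n : Nat) : List Ent → List Ent :=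
  Nat.rec (motive := fun _ => List Ent → List Ent)
    (fun st => st)
    (fun n ih st => match st with
      | [] => []
      | e :: st =>
        ih (nxt K (restr e.rem e.c (Nat.log2 e.d)) (Nat.mod (Nat.div w (Nat.pow 82 n)) 82)
            (push e.rem e.c (Nat.xor e.d (Nat.shiftLeft 1 (Nat.log2 e.d))) st))) n

def run (K : List Nat) (ws : List Nat) : List Ent → List Ent :=
  List.rec (motive := fun _ => List Ent → List Ent)
    (fun st => st) (fun w _ ih st => ih (steps K w 32 st)) ws

/-- the state `r` is refuted by the tree `ws`, with root at the cell `c` -/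
def ok (K : List Nat) (r c : Nat) (ws : List Nat) : Bool :=
  Nat.blt c 81 && List.isEmpty (run K ws [⟨r, c, dom r c⟩])

end Pool.Agent.T6.H90.Room
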