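import Pool.Agent.T6.H3.Room.Base

/-!
# A cyclic Room square of side 9 with a complement
-/

set_option autoImplicit false

namespace Pool.Agent.T6.H90.Room

open Pool.Agent.T6.H3.Room

def tabR : List ℕ :=
  [1, 69, 48, 0, 0, 0, 0, 57, 23, 34, 2, 17, 59, 0, 0, 0, 0, 68, 79, 45, 3, 28, 16, 0, 0, 0, 0,
   0, 18, 56, 4, 39, 27, 0, 0, 0, 0, 0, 29, 67, 5, 14, 38, 0, 0, 0, 0, 0, 13, 78, 6, 25, 49, 0,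
   0, 0, 0, 0, 24, 89, 7, 36, 15, 26, 0, 0, 0, 0, 35, 19, 8, 47, 58, 37, 0, 0, 0, 0, 46, 12, 9]

def locR : List ℕ :=
  [0, 0, 10, 20, 30, 40, 50, 60, 70, 80, 0, 0, 79, 48, 41, 62, 22, 11, 28, 69, 0, 0, 0, 8, 58,
   51, 63, 32, 21, 38, 0, 0, 0, 0, 9, 68, 61, 73, 42, 31, 0, 0, 0, 0, 0, 19, 78, 71, 2, 52, 0,
   0, 0, 0, 0, 0, 29, 7, 72, 12, 0, 0, 0, 0, 0, 0, 0, 39, 17, 1, 0, 0, 0, 0, 0, 0, 0, 0, 49,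
   18, 0, 0, 0, 0, 0, 0, 0, 0, 0, 59, 0, 0, 0, 0, 0, 0, 0, 0, 0, 0]

def rowR : List ℕ :=
  [0, 0, 8, 8, 2, 7, 1, 7, 2, 1, 1, 2, 1, 0, 0, 3, 8, 2, 8, 3, 2, 4, 3, 2, 1, 1, 4, 0, 3, 0, 3,
   1, 5, 4, 3, 2, 2, 5, 1, 4, 4, 5, 2, 6, 5, 4, 3, 3, 6, 2, 5, 3, 6, 3, 7, 6, 5, 4, 4, 7, 6, 8,
   4, 7, 4, 8, 7, 6, 5, 5, 7, 6, 0, 5, 8, 5, 0, 8, 7, 6, 8, 7, 7, 1, 6, 0, 6, 1, 0, 8]

def colR : List ℕ :=
  [0, 0, 7, 1, 1, 8, 7, 2, 8, 2, 1, 3, 1, 8, 2, 2, 0, 8, 3, 0, 2, 1, 4, 2, 0, 3, 3, 1, 0, 4, 3,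
   5, 2, 5, 3, 1, 4, 4, 2, 1, 4, 2, 6, 3, 6, 4, 2, 5, 5, 3, 5, 4, 3, 7, 4, 7, 5, 3, 6, 6, 6, 7,
   5, 4, 8, 5, 8, 6, 4, 7, 7, 8, 8, 6, 5, 0, 6, 0, 7, 5, 8, 6, 0, 0, 7, 6, 1, 7, 1, 8]

def tabB : List ℕ :=
  [1, 57, 0, 0, 23, 0, 48, 69, 0, 58, 2, 0, 0, 19, 0, 0, 37, 46, 0, 49, 3, 16, 0, 78, 0, 0, 25,
   0, 0, 67, 4, 0, 15, 29, 0, 38, 0, 36, 0, 89, 5, 24, 0, 0, 17, 79, 0, 28, 0, 0, 6, 13, 45, 0,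
   34, 0, 59, 0, 68, 0, 7, 12, 0, 0, 0, 14, 27, 0, 39, 56, 8, 0, 26, 18, 0, 35, 47, 0, 0, 0, 9]

def locB : List ℕ :=
  [0, 0, 10, 20, 30, 40, 50, 60, 70, 80, 0, 0, 61, 51, 65, 32, 21, 44, 73, 13, 0, 0, 0, 4, 41,
   26, 72, 66, 47, 33, 0, 0, 0, 0, 54, 75, 37, 16, 35, 68, 0, 0, 0, 0, 0, 52, 17, 76, 6, 19, 0,
   0, 0, 0, 0, 0, 69, 1, 9, 56, 0, 0, 0, 0, 0, 0, 0, 29, 58, 7, 0, 0, 0, 0, 0, 0, 0, 0, 23, 45,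
   0, 0, 0, 0, 0, 0, 0, 0, 0, 39, 0, 0, 0, 0, 0, 0, 0, 0, 0, 0]

def rowB : List ℕ :=
  [0, 0, 4, 4, 6, 1, 7, 1, 6, 7, 1, 4, 1, 7, 8, 0, 8, 7, 0, 4, 2, 3, 8, 2, 1, 8, 3, 5, 5, 1, 3,
   5, 6, 8, 3, 5, 2, 2, 8, 6, 4, 8, 5, 1, 5, 4, 1, 8, 3, 3, 5, 6, 2, 6, 7, 7, 5, 0, 2, 0, 6, 7,
   7, 0, 0, 2, 4, 6, 4, 2, 7, 2, 3, 5, 2, 6, 6, 3, 7, 5, 8, 1, 0, 3, 4, 3, 0, 4, 1, 8]

def colB : List ℕ :=
  [0, 0, 8, 6, 6, 1, 8, 5, 1, 5, 1, 8, 1, 4, 2, 0, 4, 0, 8, 2, 2, 7, 5, 2, 7, 6, 3, 3, 5, 6, 3,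
   2, 7, 8, 3, 8, 2, 7, 4, 4, 4, 1, 0, 0, 8, 4, 6, 8, 6, 1, 5, 3, 4, 7, 4, 3, 5, 2, 2, 7, 6, 5,
   3, 5, 0, 7, 7, 6, 0, 3, 7, 6, 6, 1, 5, 5, 0, 1, 7, 0, 8, 4, 2, 3, 1, 2, 1, 4, 3, 8]

def tabC : List ℕ :=
  [1, 0, 59, 28, 0, 34, 0, 0, 67, 0, 2, 16, 35, 0, 79, 48, 0, 0, 27, 0, 3, 0, 68, 0, 15, 49, 0,
   58, 37, 0, 4, 19, 0, 0, 26, 0, 46, 0, 78, 0, 5, 0, 29, 13, 0, 0, 89, 0, 17, 23, 6, 0, 0, 45,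
   0, 14, 0, 69, 0, 25, 7, 0, 38, 39, 56, 0, 0, 47, 0, 0, 8, 12, 0, 0, 24, 0, 0, 18, 36, 57, 9]

def locC : List ℕ :=
  [0, 0, 10, 20, 30, 40, 50, 60, 70, 80, 0, 0, 71, 43, 55, 24, 11, 48, 77, 31, 0, 0, 0, 49, 74,
   59, 34, 18, 3, 42, 0, 0, 0, 0, 5, 12, 78, 28, 62, 63, 0, 0, 0, 0, 0, 53, 36, 67, 15, 25, 0,
   0, 0, 0, 0, 0, 64, 79, 27, 2, 0, 0, 0, 0, 0, 0, 0, 8, 22, 57, 0, 0, 0, 0, 0, 0, 0, 0, 38,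
   14, 0, 0, 0, 0, 0, 0, 0, 0, 0, 46, 0, 0, 0, 0, 0, 0, 0, 0, 0, 0]

def rowC : List ℕ :=
  [0, 0, 3, 5, 5, 2, 8, 8, 3, 2, 1, 2, 1, 3, 6, 3, 2, 5, 6, 5, 2, 6, 0, 2, 7, 6, 4, 0, 4, 7, 3,
   4, 7, 1, 3, 0, 7, 1, 0, 4, 4, 7, 6, 7, 0, 4, 0, 2, 2, 6, 5, 3, 4, 4, 8, 8, 5, 3, 1, 1, 6, 1,
   5, 8, 1, 5, 3, 6, 8, 3, 7, 8, 8, 0, 4, 1, 1, 4, 7, 0, 8, 5, 2, 6, 2, 7, 6, 7, 5, 8]

def colC : List ℕ :=
  [0, 0, 2, 7, 4, 3, 4, 2, 3, 7, 1, 6, 1, 3, 6, 7, 7, 3, 5, 5, 2, 1, 8, 2, 8, 0, 1, 4, 4, 0, 3,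
   5, 0, 1, 3, 1, 6, 5, 0, 6, 4, 3, 5, 5, 7, 4, 2, 7, 2, 3, 5, 8, 6, 0, 0, 6, 5, 1, 8, 1, 6, 2,
   4, 8, 1, 2, 8, 6, 1, 4, 7, 4, 3, 4, 2, 8, 3, 8, 7, 2, 8, 7, 7, 6, 5, 5, 0, 0, 6, 8]

/-- the cyclic square: developed over the integers modulo 9 (symbol `1 + g` for `g`, symbol `0` for
the point at infinity) from the starter `12, 37, 46, 58` with the adder `1, 7, 2, 8` -/
def sqR : Arr 9 := arr tabR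

/-- the square standardized with the symbol `1` -/
def sqB : Arr 9 := arr tabB

/-- the complement of `sqB` -/
def sqC : Arr 9 := arr tabC

theorem room_R : IsRoom sqR :=
  room_of_check tabR locR rowR colR (by decide +kernel) (by decide +kernel) (by decide +kernel)
    (by decide +kernel)

theorem room_B : IsRoom sqB :=
  room_of_check tabB locB rowB colB (by decide +kernel) (by decide +kernel) (by decide +kernel)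
    (by decide +kernel)

theorem room_C : IsRoom sqC :=
  room_of_check tabC locC rowC colC (by decide +kernel) (by decide +kernel) (by decide +kernel)
    (by decide +kernel)

theorem std_B : Standardized sqB := std_of tabB (by decide +kernel)

theorem std_C : Standardized sqC := std_of tabC (by decide +kernel)

theorem compl_BC : Complementary sqB sqC := by
  have h : ∀ i j : Fin 9, i ≠ j → (dec tabB i j).isSome = !(dec tabC i j).isSome := by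
    decide +kernel
  intro i j hij
  unfold sqB sqC
  rw [isSome_arr, isSome_arr, h i j hij]
  simp

def rho : Equiv.Perm (Fin 9) :=
  ⟨fun i => Fin.ofNat 9 ([0, 8, 5, 4, 6, 2, 1, 3, 7].getD i.1 0), fun i => Fin.ofNat 9 ([0, 6, 5, 7, 3, 2, 4, 8, 1].getD i.1 0), by decide +kernel,
    by decide +kernel⟩

def kap : Equiv.Perm (Fin 9) :=
  ⟨fun i => Fin.ofNat 9 ([0, 7, 3, 5, 8, 4, 2, 1, 6].getD i.1 0), fun i => Fin.ofNat 9 ([0, 7, 6, 2, 5, 3, 8, 1, 4].getD i.1 0), by decide +kernel,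
    by decide +kernel⟩

def sig : Equiv.Perm (Fin 10) :=
  ⟨fun i => Fin.ofNat 10 ([1, 0, 2, 3, 4, 5, 6, 7, 8, 9].getD i.1 0), fun i => Fin.ofNat 10 ([1, 0, 2, 3, 4, 5, 6, 7, 8, 9].getD i.1 0), by decide +kernel,
    by decide +kernel⟩

theorem iso_RB : Iso sqR sqB := by
  refine ⟨rho, kap, sig, ?_⟩
  have h : ∀ i j : Fin 9, dec tabB i j = (dec tabR (rho i) (kap j)).map fun c =>
      if sig c.1 < sig c.2 then (sig c.1, sig c.2) else (sig c.2, sig c.1) := by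
    decide +kernel
  intro i j
  unfold sqB sqR arr
  rw [h i j]
  cases dec tabR (rho i) (kap j) with
  | none => rfl
  | some c =>
    simp only [Option.map_some, Option.some.injEq, Sym2.map_mk]
    by_cases hlt : sig c.1 < sig c.2
    · rw [if_pos hlt]
    · rw [if_neg hlt, Sym2.eq_swap]

theorem complement_R : HasComplement sqR :=
  ⟨sqB, sqC, room_B, std_B, room_C, std_C, iso_RB, compl_BC⟩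

end Pool.Agent.T6.H90.Room
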